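import Mathlib
import Pool.Agent.Work.MP_fe499a_co.Defs
import Pool.Agent.Work.MP_fe499a_co.Treedepth
import Pool.Agent.Work.MP_fe499a_co.Ultra

/-!
MP_fe499a_co, Q1: the statement is false. For the graph `F` consisting of a cycle of length `12`
and a cycle of length `18` which share exactly one vertex, the `F`-subgraph-free graphs of diameter
at most `3` have bounded treedepth.
-/

namespace Pool.Agent.Results.MP_fe499a_co.BoundedTreedepth

open Pool.Agent.Work.MP_fe499a_co

/-- the cycle of length twelve in the bow tie -/
def w12 : bowF.Walk 0 0 :=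
    (.cons (show bowF.Adj 0 1 by decide) (.cons (show bowF.Adj 1 2 by decide) (.cons (show bowF.Adj
    2 3 by decide) (.cons (show bowF.Adj 3 4 by decide) (.cons (show bowF.Adj 4 5 by decide) (.cons
    (show bowF.Adj 5 6 by decide) (.cons (show bowF.Adj 6 7 by decide) (.cons (show bowF.Adj 7 8 by
    decide) (.cons (show bowF.Adj 8 9 by decide) (.cons (show bowF.Adj 9 10 by decide) (.cons (show
    bowF.Adj 10 11 by decide) (.cons (show bowF.Adj 11 0 by decide) .nil))))))))))))

/-- the cycle of length eighteen in the bow tie -/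
def w18 : bowF.Walk 0 0 :=
    (.cons (show bowF.Adj 0 12 by decide) (.cons (show bowF.Adj 12 13 by decide) (.cons (show
    bowF.Adj 13 14 by decide) (.cons (show bowF.Adj 14 15 by decide) (.cons (show bowF.Adj 15 16 by
    decide) (.cons (show bowF.Adj 16 17 by decide) (.cons (show bowF.Adj 17 18 by decide) (.cons
    (show bowF.Adj 18 19 by decide) (.cons (show bowF.Adj 19 20 by decide) (.cons (show bowF.Adj 20
    21 by decide) (.cons (show bowF.Adj 21 22 by decide) (.cons (show bowF.Adj 22 23 by decide)
    (.cons (show bowF.Adj 23 24 by decide) (.cons (show bowF.Adj 24 25 by decide) (.cons (show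
    bowF.Adj 25 26 by decide) (.cons (show bowF.Adj 26 27 by decide) (.cons (show bowF.Adj 27 28 by
    decide) (.cons (show bowF.Adj 28 0 by decide) .nil))))))))))))))))))

set_option maxRecDepth 20000 in
lemma w12_isCycle : w12.IsCycle := by
  unfold w12
  rw [SimpleGraph.Walk.cons_isCycle_iff, SimpleGraph.Walk.isPath_def]
  constructor
  · decide
  · decide

set_option maxRecDepth 20000 in
lemma w18_isCycle : w18.IsCycle := by
  unfold w18
  rw [SimpleGraph.Walk.cons_isCycle_iff, SimpleGraph.Walk.isPath_def]
  constructor
  · decide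
  · decide

lemma bowF_two : HasTwoCycles bowF := by
  refine ⟨0, 0, w12, w18, w12_isCycle, w18_isCycle, ?_⟩
  intro h
  have h1 : (1 : Fin 29) ∈ w12.toSubgraph.verts := by
    rw [SimpleGraph.Walk.mem_verts_toSubgraph]
    decide
  rw [h, SimpleGraph.Walk.mem_verts_toSubgraph] at h1
  revert h1
  decide

/-- **MP_fe499a_co, Q1 (negated form).** There are a graph `F` with at least two cycles and a
number `k` such that every `F`-subgraph-free finite graph of diameter at most `3` has treedepth
at most `k`. -/
theorem result :
    ∃ (m : ℕ) (F : SimpleGraph (Fin m)), HasTwoCycles F ∧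
      ∃ k : ℕ, ∀ (n : ℕ) (G : SimpleGraph (Fin n)),
        F.Free G → G.ediam ≤ 3 → TreedepthLE G k := by
  refine ⟨29, bowF, bowF_two, ?_⟩
  by_contra hcon
  push Not at hcon
  choose n G hfree hdiam htd using hcon
  obtain ⟨k, hk⟩ := ultra_bow (fun k => Fin (n k)) G (fun k => dist_three (hdiam k)) (by
    intro k
    by_contra hk
    push Not at hk
    exact htd k (treedepthLE_of_paths k hk))
  obtain ⟨c⟩ := hk
  exact (hfree k).false c

end Pool.Agent.Results.MP_fe499a_co.BoundedTreedepth
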